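import Mathlib
import Pool.Agent.Lib_helper19.FF.Defs
import Pool.Agent.Lib_helper19.FF.Bridge

set_option autoImplicit false

open Polynomial Finset
open Pool.Agent.Lib_helper19.FF.Defs

namespace Pool.Agent.Results.MP_a687e6_pr.FiniteFreeEPIEquality

open Pool.Agent.Lib_helper19.FF in
/-- **Equality in the finite free entropy power inequality.** Let `p = ∏ (x - r_i)` and
`q = ∏ (x - s_i)` have nonzero discriminants, let `p ⊞_d q = ∏ (x - t_i)`, and suppose that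
`Dis(r)^(1/N) + Dis(s)^(1/N) = Dis(t)^(1/N)`. Then `p` and `q` are generalized Hermite
polynomials. -/
theorem result (d : ℕ) (hd : 2 ≤ d) (r s t : Fin d → ℝ) (hr : 0 < Dis r) (hs : 0 < Dis s)
    (h : ffConv d (rootPoly r) (rootPoly s) = rootPoly t)
    (heq : Dis t ^ (1 / (d.choose 2 : ℝ)) =
      Dis r ^ (1 / (d.choose 2 : ℝ)) + Dis s ^ (1 / (d.choose 2 : ℝ))) :
    (∃ m v : ℝ, 0 ≤ v ∧ rootPoly r = genHermite d m v) ∧
      ∃ m v : ℝ, 0 ≤ v ∧ rootPoly s = genHermite d m v := by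
  rw [ffConv_eq (by rw [rootPoly_eq]; exact (natDegree_rp s).le)] at h
  obtain ⟨m, n, κ, ρ, hκ, hρ, e1, e2⟩ := equality_case hd (injective_of_disc_pos hr)
    (injective_of_disc_pos hs) h heq.symm
  have h1 : (0 : ℝ) ≤ d - 1 := by
    have : (2 : ℝ) ≤ d := by exact_mod_cast hd
    linarith
  refine ⟨⟨m, (d - 1) * κ, mul_nonneg h1 hκ, ?_⟩, ⟨n, (d - 1) * ρ, mul_nonneg h1 hρ, ?_⟩⟩
  · rw [genHermite_eq hd, ← e1]
    rfl
  · rw [genHermite_eq hd, ← e2]
    rfl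

end Pool.Agent.Results.MP_a687e6_pr.FiniteFreeEPIEquality
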